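import Pool.Agent.H618R3.MW.Final

/-!
# MP_0430e4_lc: a bound below the second MRRW bound, at every relative distance

For `0 < δ < 1/2` the asymptotic rate of binary codes satisfies `R(δ) ≤ Bq(δ) < B(δ)`, where `B` is
the second McEliece–Rodemich–Rumsey–Welch bound and `Bq(δ)` is the infimum, over all
classical–quantum states `(ρ₀, ρ₁)` of a bit `X` and a finite-dimensional system `Q` with
`tr √ρ₀ √ρ₁ ≥ 1/2 - δ`, of the conditional entropy `H(X|Q) = S(ρ₀) + S(ρ₁) - S(ρ₀+ρ₁)` in bits.

Proof.  The product theorem for the skew information of the starting files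
(`Pool.Agent.H390R2.LP.iid`) is applied to the translates of a code and to the one-site state
`½ ∑_s (1 + (-1)^s σ_x) ⊗ ρ_s`; its energy is `1/2 - tr √ρ₀ √ρ₁`, and its two entropies give
`R(δ) ≤ H(X|Q)` (`R_le_of_data`).  The second MRRW bound comes from certain states with a
two-dimensional `Q`.  Tilting one eigenvector of such a state by an angle of order `√η` into a third
dimension of `Q` costs `O(η)` in `tr √ρ₀ √ρ₁`, leaves the spectra of `ρ₀` and `ρ₁` as they are, and
adds to the spectrum of `ρ₀ + ρ₁` an eigenvalue of order `η`, so that the entropy gain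
`η log (1/η)` wins (`exists_lt_phi`).
-/

set_option autoImplicit false

namespace Pool.Agent.Results.MP_0430e4_lc.BelowMRRW

open Pool.Agent.H618R3.MW

theorem result : ∀ δ : ℝ, 0 < δ → δ < 1 / 2 → R δ ≤ Bq δ ∧ Bq δ < B δ :=
  fun _ h0 h1 => ⟨R_le_Bq h0 h1, Bq_lt_B h0 h1⟩

end Pool.Agent.Results.MP_0430e4_lc.BelowMRRW
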