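import Pool.Agent.H618R3.MW.Fam

/-!
# MP_0430e4_lc: a one-parameter closed-form bound

For `0 < δ < 1/2` and `1 - 2δ ≤ u ≤ 1`, `R(δ) ≤ h(u²) - h(u² - (1-2δ)u)`.  At `u = 1 - 2δ` this is
the first McEliece–Rodemich–Rumsey–Welch bound, at `u = 1` the Elias–Bassalygo bound; in between it
is better than both.  The states used are pairs of pure states of a qubit.
-/

set_option autoImplicit false

namespace Pool.Agent.Results.MP_0430e4_lc.ClosedForm

open Pool.Agent.H618R3.MW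

theorem result : ∀ δ u : ℝ, 0 < δ → δ < 1 / 2 → 1 - 2 * δ ≤ u → u ≤ 1 →
    R δ ≤ h (u ^ 2) - h (u ^ 2 - (1 - 2 * δ) * u) :=
  fun _ _ h0 h1 h2 h3 => R_le_F h0 h1 h2 h3

end Pool.Agent.Results.MP_0430e4_lc.ClosedForm
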