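import Pool.Agent.H665R3.CodeOpsD
import Pool.Agent.H665R3.CodeOpsF

/-!
# Binary codes closed under Boolean operations

For a set `F` of finitary operations on `{0,1}` let `A_F(n,d)` be the largest size of a binary code
of length `n` with minimum distance at least `d` that is closed under the coordinatewise
application of every operation of `F`.  If some operation of `F` is not affine over the field with
two elements, then `A_F(n,d) = 2^⌊n/d⌋` for all `1 ≤ d ≤ n`, so the asymptotic rate is `0`; if all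
operations of `F` are affine, then `A_F` satisfies the Gilbert-Varshamov bound.  Moreover a code of
minimum distance `d` with more than `2^⌊2n/d⌋` words is far from being closed under any non-affine
operation: some value of the operation on its words has distance more than `d²/(64n)` from the code.
-/

set_option autoImplicit false

namespace Pool.Agent.Results.MP_0430e4_lc.ClosureDichotomy

open Finset Filter Topology

/-- A finitary operation on `{0,1}` : its arity `k` and a map `{0,1}^k → {0,1}`. -/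
abbrev Op : Type := Σ k : ℕ, ((Fin k → Bool) → Bool)

/-- `C` is closed under the coordinatewise application of `f`: if `c 1, ..., c k` are words of `C`
then so is the word whose `j`-th letter is `f (c 1 j, ..., c k j)`. -/
def ClosedUnder {n : ℕ} (C : Finset (Fin n → Bool)) (f : Op) : Prop :=
  ∀ c : Fin f.1 → Fin n → Bool, (∀ i, c i ∈ C) → (fun j => f.2 (fun i => c i j)) ∈ C

/-- `f` is affine over the field with two elements: `f x = b + ∑ i ∈ A, x i` modulo 2. -/
def AffineOp (f : Op) : Prop :=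
  ∃ (b : Bool) (A : Finset (Fin f.1)),
    ∀ x, f.2 x = (b ^^ decide (Odd (A.filter (fun i => x i = true)).card))

/-- Any two distinct words of `C` differ in at least `d` coordinates. -/
def IsCode {n : ℕ} (C : Finset (Fin n → Bool)) (d : ℕ) : Prop :=
  ∀ x ∈ C, ∀ y ∈ C, x ≠ y → d ≤ hammingDist x y

open Classical in
/-- The largest size of a binary code of length `n` with minimum distance at least `d` that is
closed under all operations of `F`. -/
noncomputable def A (F : Set Op) (n d : ℕ) : ℕ :=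
  ((univ : Finset (Finset (Fin n → Bool))).filter
    (fun C => (∀ f ∈ F, ClosedUnder C f) ∧ IsCode C d)).sup Finset.card

/-- Binary entropy. -/
noncomputable def H2 (x : ℝ) : ℝ := -x * Real.logb 2 x - (1 - x) * Real.logb 2 (1 - x)

theorem le_A (F : Set Op) {n d : ℕ} (C : Finset (Fin n → Bool)) (h1 : ∀ f ∈ F, ClosedUnder C f)
    (h2 : IsCode C d) : C.card ≤ A F n d := by
  classical
  unfold A
  apply Finset.le_sup (f := Finset.card)
  simp only [mem_filter, mem_univ, true_and]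
  exact ⟨h1, h2⟩

theorem A_le (F : Set Op) {n d m : ℕ} (h : ∀ C : Finset (Fin n → Bool),
    (∀ f ∈ F, ClosedUnder C f) → IsCode C d → C.card ≤ m) : A F n d ≤ m := by
  classical
  unfold A
  apply Finset.sup_le
  intro C hC
  simp only [mem_filter, mem_univ, true_and] at hC
  exact h C hC.1 hC.2

theorem A_nonaffine (F : Set Op) (hF : ∃ f ∈ F, ¬ AffineOp f) {n d : ℕ} (hd : 1 ≤ d)
    (hdn : d ≤ n) : A F n d = 2 ^ (n / d) := by
  apply le_antisymm
  · apply A_le
    intro C h1 h2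
    obtain ⟨f, hf, hna⟩ := hF
    exact Pool.Agent.H665R3.CodeOps.bound_nonaffine hd C h2 f.2 (h1 f hf) hna
  · obtain ⟨C, h1, h2, h3⟩ := Pool.Agent.H665R3.CodeOps.exists_block (n := n) hd hdn
    rw [← h3]
    exact le_A F C (fun f _ => h1 f.1 f.2) h2

theorem A_affine (F : Set Op) (hF : ∀ f ∈ F, AffineOp f) {n d : ℕ} (hd : 1 ≤ d)
    (hdn : d ≤ n) : 2 ^ n ≤ A F n d * ∑ i ∈ range d, n.choose i := by
  obtain ⟨C, hC, h⟩ := Pool.Agent.H665R3.CodeOps.exists_good (n := n) hd hdn
  refine h.trans (Nat.mul_le_mul_right _ ?_)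
  exact le_A F C (fun f hf => Pool.Agent.H665R3.CodeOps.good_clo hC f.2 (hF f hf))
    (Pool.Agent.H665R3.CodeOps.good_md hC)

theorem ceil_bounds {δ : ℝ} (h0 : 0 < δ) (h1 : δ < 1 / 2) {n : ℕ} (hn : 1 ≤ n) :
    1 ≤ ⌈δ * n⌉₊ ∧ ⌈δ * n⌉₊ ≤ n := by
  have hn' : (1 : ℝ) ≤ n := by exact_mod_cast hn
  constructor
  · exact Nat.one_le_iff_ne_zero.mpr (Nat.ceil_pos.mpr (by positivity)).ne'
  · apply Nat.ceil_le.mpr
    nlinarith

theorem volume_le {δ : ℝ} (h0 : 0 < δ) (h1 : δ < 1 / 2) {n : ℕ} (hn : 1 ≤ n) :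
    (∑ i ∈ range ⌈δ * n⌉₊, (n.choose i : ℝ)) *
      Real.exp (n * (δ * Real.log δ + (1 - δ) * Real.log (1 - δ))) ≤ 1 := by
  have hq : 0 < 1 - δ := by linarith
  obtain ⟨_, hdn⟩ := ceil_bounds h0 h1 hn
  calc (∑ i ∈ range ⌈δ * n⌉₊, (n.choose i : ℝ)) *
      Real.exp (n * (δ * Real.log δ + (1 - δ) * Real.log (1 - δ)))
      = ∑ i ∈ range ⌈δ * n⌉₊, (n.choose i : ℝ) *
        Real.exp (n * (δ * Real.log δ + (1 - δ) * Real.log (1 - δ))) := by
        rw [Finset.sum_mul]
    _ ≤ ∑ i ∈ range ⌈δ * n⌉₊, δ ^ i * (1 - δ) ^ (n - i) * (n.choose i : ℝ) := by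
        apply Finset.sum_le_sum
        intro i hi
        have hi1 : (i : ℝ) < δ * n := Nat.lt_ceil.mp (Finset.mem_range.mp hi)
        have hi2 : i ≤ n := by
          have := Finset.mem_range.mp hi
          omega
        rw [mul_comm]
        apply mul_le_mul_of_nonneg_right _ (by positivity)
        have e1 : δ ^ i * (1 - δ) ^ (n - i) =
            Real.exp (i * Real.log δ + ((n : ℝ) - i) * Real.log (1 - δ)) := by
          rw [Real.exp_add, mul_comm (i : ℝ), Real.exp_mul, Real.exp_log h0, Real.rpow_natCast,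
            ← Nat.cast_sub hi2, mul_comm ((n - i : ℕ) : ℝ), Real.exp_mul, Real.exp_log hq,
            Real.rpow_natCast]
        rw [e1]
        apply Real.exp_le_exp.mpr
        have hl : Real.log δ ≤ Real.log (1 - δ) := Real.log_le_log h0 (by linarith)
        nlinarith [mul_nonneg (sub_nonneg.mpr hi1.le) (sub_nonneg.mpr hl)]
    _ ≤ ∑ i ∈ range (n + 1), δ ^ i * (1 - δ) ^ (n - i) * (n.choose i : ℝ) := by
        apply Finset.sum_le_sum_of_subset_of_nonneg
        · intro i hi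
          have := Finset.mem_range.mp hi
          exact Finset.mem_range.mpr (by omega)
        · intro i _ _
          positivity
    _ = 1 := by
        rw [← add_pow]
        simp

/-- The cases of exact closure. -/
theorem closed_case (F : Set Op) :
    ((∃ f ∈ F, ¬ AffineOp f) →
      (∀ n d : ℕ, 1 ≤ d → d ≤ n → A F n d = 2 ^ (n / d)) ∧
      ∀ δ : ℝ, 0 < δ → δ < 1 / 2 →
        Tendsto (fun n : ℕ => Real.logb 2 (A F n ⌈δ * n⌉₊ : ℝ) / n) atTop (𝓝 0)) ∧
    ((∀ f ∈ F, AffineOp f) →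
      (∀ n d : ℕ, 1 ≤ d → d ≤ n → 2 ^ n ≤ A F n d * ∑ i ∈ range d, n.choose i) ∧
      ∀ δ : ℝ, 0 < δ → δ < 1 / 2 → ∀ n : ℕ, 1 ≤ n →
        1 - H2 δ ≤ Real.logb 2 (A F n ⌈δ * n⌉₊ : ℝ) / n) := by
  refine ⟨fun hF => ⟨fun n d hd hdn => A_nonaffine F hF hd hdn, fun δ h0 h1 => ?_⟩,
    fun hF => ⟨fun n d hd hdn => A_affine F hF hd hdn, fun δ h0 h1 n hn => ?_⟩⟩
  · have hlim : Tendsto (fun n : ℕ => (1 / δ) / (n : ℝ)) atTop (𝓝 0) :=
      tendsto_const_div_atTop_nhds_zero_nat (1 / δ)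
    apply squeeze_zero' _ _ hlim
    · filter_upwards [eventually_ge_atTop 1] with n hn
      obtain ⟨hd, hdn⟩ := ceil_bounds h0 h1 hn
      rw [A_nonaffine F hF hd hdn]
      push_cast
      rw [Real.logb_pow, Real.logb_self_eq_one (by norm_num), mul_one]
      positivity
    · filter_upwards [eventually_ge_atTop 1] with n hn
      obtain ⟨hd, hdn⟩ := ceil_bounds h0 h1 hn
      have hn' : (0 : ℝ) < n := by exact_mod_cast hn
      rw [A_nonaffine F hF hd hdn]
      push_cast
      rw [Real.logb_pow, Real.logb_self_eq_one (by norm_num), mul_one]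
      apply div_le_div_of_nonneg_right _ hn'.le
      calc ((n / ⌈δ * n⌉₊ : ℕ) : ℝ) ≤ (n : ℝ) / (⌈δ * n⌉₊ : ℝ) := Nat.cast_div_le
        _ ≤ (n : ℝ) / (δ * n) := by
            apply div_le_div_of_nonneg_left hn'.le (by positivity) (Nat.le_ceil _)
        _ = 1 / δ := by field_simp
  · obtain ⟨hd, hdn⟩ := ceil_bounds h0 h1 hn
    have hn' : (0 : ℝ) < n := by exact_mod_cast hn
    have hA := A_affine F hF hd hdn
    have hV := volume_le h0 h1 hn
    set V : ℝ := ∑ i ∈ range ⌈δ * n⌉₊, (n.choose i : ℝ) with hVdef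
    set E : ℝ := n * (δ * Real.log δ + (1 - δ) * Real.log (1 - δ)) with hE
    have hA' : (2 : ℝ) ^ n ≤ (A F n ⌈δ * n⌉₊ : ℝ) * V := by
      have := (Nat.cast_le (α := ℝ)).mpr hA
      push_cast at this
      exact this
    have hApos : (0 : ℝ) ≤ (A F n ⌈δ * n⌉₊ : ℝ) := Nat.cast_nonneg _
    have h2 : (2 : ℝ) ^ n * Real.exp E ≤ (A F n ⌈δ * n⌉₊ : ℝ) := by
      calc (2 : ℝ) ^ n * Real.exp E ≤ ((A F n ⌈δ * n⌉₊ : ℝ) * V) * Real.exp E :=
            mul_le_mul_of_nonneg_right hA' (Real.exp_pos _).le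
        _ = (A F n ⌈δ * n⌉₊ : ℝ) * (V * Real.exp E) := by ring
        _ ≤ (A F n ⌈δ * n⌉₊ : ℝ) * 1 := mul_le_mul_of_nonneg_left hV hApos
        _ = _ := mul_one _
    have h3 : (n : ℝ) * Real.log 2 + E ≤ Real.log (A F n ⌈δ * n⌉₊ : ℝ) := by
      have := Real.log_le_log (by positivity) h2
      rwa [Real.log_mul (by positivity) (Real.exp_pos _).ne', Real.log_pow, Real.log_exp] at this
    have hl2 : 0 < Real.log 2 := Real.log_pos (by norm_num)
    rw [le_div_iff₀ hn']
    unfold H2 Real.logb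
    rw [le_div_iff₀ hl2]
    refine le_trans (le_of_eq ?_) h3
    rw [hE]
    field_simp
    ring

/-- A large code is far from being closed under a non-affine operation. -/
theorem far_case (f : Op) (hf : ¬ AffineOp f) (n d : ℕ) (hd : 1 ≤ d) (C : Finset (Fin n → Bool))
    (hC : IsCode C d) (hcard : 2 ^ (2 * n / d) < C.card) :
    ∃ c : Fin f.1 → Fin n → Bool, (∀ i, c i ∈ C) ∧
      ∀ w ∈ C, d ^ 2 < 64 * n * hammingDist (fun j => f.2 (fun i => c i j)) w := by
  by_contra hcon
  push Not at hcon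
  have key := Pool.Agent.H665R3.CodeOps.bound_approx (e := d ^ 2 / (64 * n)) hd
    (by
      have := Nat.div_mul_le_self (d ^ 2) (64 * n)
      calc 64 * (d ^ 2 / (64 * n)) * n = d ^ 2 / (64 * n) * (64 * n) := by ring
        _ ≤ d ^ 2 := this) C hC f.2
    (by
      intro c hc
      obtain ⟨w, hw, hwe⟩ := hcon c hc
      refine ⟨w, hw, ?_⟩
      rcases Nat.eq_zero_or_pos n with hn | hn
      · have h1 := hammingDist_le_card_fintype (x := fun j => f.2 (fun i => c i j)) (y := w)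
        rw [Fintype.card_fin] at h1
        exact (h1.trans hn.le).trans (Nat.zero_le _)
      · rw [Nat.le_div_iff_mul_le (by omega)]
        calc hammingDist (fun j => f.2 (fun i => c i j)) w * (64 * n)
            = 64 * n * hammingDist (fun j => f.2 (fun i => c i j)) w := by ring
          _ ≤ d ^ 2 := hwe) hf
  omega

/-- **Theorem.** (1) Let `F` be a set of finitary operations on `{0,1}`, some of which is not
affine. Then `A_F(n,d) = 2^⌊n/d⌋` for all `1 ≤ d ≤ n`, and `(1/n) log₂ A_F(n, ⌈δn⌉) → 0` for every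
`0 < δ < 1/2`.
(2) If all operations of `F` are affine, then `A_F(n,d) ≥ 2^n / ∑_{i<d} C(n,i)` for all
`1 ≤ d ≤ n`, and `(1/n) log₂ A_F(n, ⌈δn⌉) ≥ 1 - H₂(δ)` for every `0 < δ < 1/2`, `n ≥ 1`.
(3) If `f` is not affine and `C` is a code of length `n` with minimum distance at least `d ≥ 1` and
more than `2^⌊2n/d⌋` words, then there are words `c 1, ..., c k` of `C` such that
`f (c 1, ..., c k)` has distance more than `d²/(64n)` from every word of `C`. -/
theorem result :
    (∀ F : Set Op, (∃ f ∈ F, ¬ AffineOp f) →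
      (∀ n d : ℕ, 1 ≤ d → d ≤ n → A F n d = 2 ^ (n / d)) ∧
      ∀ δ : ℝ, 0 < δ → δ < 1 / 2 →
        Tendsto (fun n : ℕ => Real.logb 2 (A F n ⌈δ * n⌉₊ : ℝ) / n) atTop (𝓝 0)) ∧
    (∀ F : Set Op, (∀ f ∈ F, AffineOp f) →
      (∀ n d : ℕ, 1 ≤ d → d ≤ n → 2 ^ n ≤ A F n d * ∑ i ∈ range d, n.choose i) ∧
      ∀ δ : ℝ, 0 < δ → δ < 1 / 2 → ∀ n : ℕ, 1 ≤ n →
        1 - H2 δ ≤ Real.logb 2 (A F n ⌈δ * n⌉₊ : ℝ) / n) ∧
    (∀ f : Op, ¬ AffineOp f → ∀ n d : ℕ, 1 ≤ d → ∀ C : Finset (Fin n → Bool), IsCode C d →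
      2 ^ (2 * n / d) < C.card →
      ∃ c : Fin f.1 → Fin n → Bool, (∀ i, c i ∈ C) ∧
        ∀ w ∈ C, d ^ 2 < 64 * n * hammingDist (fun j => f.2 (fun i => c i j)) w) :=
  ⟨fun F => (closed_case F).1, fun F => (closed_case F).2,
    fun f hf n d hd C hC hcard => far_case f hf n d hd C hC hcard⟩

end Pool.Agent.Results.MP_0430e4_lc.ClosureDichotomy
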